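import Pool.Agent.Lib.MP_0a5adf_nt.TP.Interfaces

/-!
Project TAO+, module TYP: the four estimates for the exceptional words.
-/

set_option autoImplicit false

namespace Pool.Agent.Lib.MP_0a5adf_nt.TP.H53

open Finset

lemma mem_Fam {n c : ℕ} {S : Finset ℕ} :
    S ∈ Fam n c ↔ S ⊆ Icc 1 c ∧ S.card = n ∧ S.sup id = c := by
  simp [Fam, mem_powersetCard, and_assoc]

lemma mem_of_sup {n c : ℕ} {S : Finset ℕ} (h : S ∈ Fam n c) (hc : 0 < c) : c ∈ S := by
  obtain ⟨h1, h2, h3⟩ := mem_Fam.1 h
  rcases S.eq_empty_or_nonempty with h4 | h4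
  · subst h4
    simp at h3
    omega
  · obtain ⟨i, hi, h5⟩ := exists_mem_eq_sup S h4 id
    rw [h3] at h5
    simp at h5
    rw [h5]
    exact hi

lemma sup_eq_of_mem {c : ℕ} {S : Finset ℕ} (h : S ⊆ Icc 1 c) (hc : c ∈ S) : S.sup id = c := by
  apply le_antisymm
  · apply Finset.sup_le
    intro x hx
    exact (mem_Icc.1 (h hx)).2
  · exact Finset.le_sup (f := id) hc

/-- Convolution bound. -/
lemma conv_le (u v : ℕ → ℝ) (hu : ∀ a, 0 ≤ u a) (hv : ∀ a, 0 ≤ v a) (c₁ : ℕ) :
    ∑ c ∈ range c₁, ∑ a ∈ range (c + 1), u a * v (c - a) ≤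
      (∑ a ∈ range c₁, u a) * ∑ c ∈ range c₁, v c := by
  have h1 : ∑ c ∈ range c₁, ∑ a ∈ range (c + 1), u a * v (c - a) =
      ∑ a ∈ range c₁, ∑ c ∈ Ico a c₁, u a * v (c - a) := by
    apply Finset.sum_comm'
    intro x y
    simp only [mem_range, mem_Ico]
    omega
  rw [h1, Finset.sum_mul]
  apply Finset.sum_le_sum
  intro a _
  rw [Finset.sum_Ico_eq_sum_range, Finset.mul_sum]
  calc ∑ k ∈ range (c₁ - a), u a * v (a + k - a) = ∑ k ∈ range (c₁ - a), u a * v k := by
        apply Finset.sum_congr rfl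
        intro k _
        congr 2
        omega
    _ ≤ ∑ k ∈ range c₁, u a * v k := by
        apply Finset.sum_le_sum_of_subset_of_nonneg
        · intro x hx
          simp only [mem_range] at hx ⊢
          omega
        · intro i _ _
          exact mul_nonneg (hu a) (hv i)

lemma mass_half (h2 : MassStatement) (n c₁ : ℕ) :
    ∑ c ∈ range c₁, ((Fam n c).card : ℝ) / 2 ^ c ≤ 1 := by
  have h := h2.2.2 (1 / 2) n c₁ (by norm_num) (by norm_num)
  have h3 : ((1 / 2 : ℝ) / (1 - 1 / 2)) ^ n = 1 := by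
    have : ((1 / 2 : ℝ) / (1 - 1 / 2)) = 1 := by norm_num
    rw [this, one_pow]
  rw [h3] at h
  refine le_trans (le_of_eq ?_) h
  apply Finset.sum_congr rfl
  intro c _
  rw [one_div, inv_pow, div_eq_mul_inv]

/-- Part 1. -/
lemma part1 (h1 : FamSplitStatement) (h2 : MassStatement) (h4 : CatStatement)
    (n h b c₁ : ℕ) (z : ℝ) (hn : h ≤ n) (hz : 1 < z) :
    ∑ c ∈ range c₁, (((Fam n c).filter fun S => h ≤ (S.filter (· ≤ b)).card).card : ℝ) / 2 ^ c ≤
      z ^ b / (2 * z - 1) ^ h := by
  obtain ⟨n', rfl⟩ := Nat.exists_eq_add_of_le hn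
  -- pointwise bound
  have key : ∀ c, (((Fam (h + n') c).filter fun S => h ≤ (S.filter (· ≤ b)).card).card : ℝ) ≤
      ∑ a ∈ range (c + 1), (if a ≤ b then ((Fam h a).card : ℝ) else 0) *
        ((Fam n' (c - a)).card : ℝ) := by
    intro c
    have e1 : (((Fam (h + n') c).filter fun S => h ≤ (S.filter (· ≤ b)).card).card : ℝ) =
        ∑ S ∈ Fam (h + n') c, (if h ≤ (S.filter (· ≤ b)).card then (1 : ℝ) else 0) := by
      rw [Finset.sum_boole]
    rw [e1, h1 ℝ h n' c]
    apply Finset.sum_le_sum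
    intro a ha
    by_cases hab : a ≤ b
    · rw [if_pos hab]
      calc ∑ A ∈ Fam h a, ∑ B ∈ Fam n' (c - a),
            (if h ≤ ((cat a A B).filter (· ≤ b)).card then (1 : ℝ) else 0)
          ≤ ∑ A ∈ Fam h a, ∑ B ∈ Fam n' (c - a), (1 : ℝ) := by
            apply Finset.sum_le_sum
            intro A _
            apply Finset.sum_le_sum
            intro B _
            split_ifs <;> norm_num
        _ = ((Fam h a).card : ℝ) * ((Fam n' (c - a)).card : ℝ) := by
            simp
    · rw [if_neg hab, zero_mul]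
      apply le_of_eq
      apply Finset.sum_eq_zero
      intro A hA
      apply Finset.sum_eq_zero
      intro B hB
      rw [if_neg]
      push Not
      obtain ⟨hA1, hA2, hA3⟩ := mem_Fam.1 hA
      obtain ⟨hB1, hB2, hB3⟩ := mem_Fam.1 hB
      have haA : a ∈ A := mem_of_sup hA (by omega)
      obtain ⟨_, _, _, _, hc5, _⟩ := h4 a (c - a) A B hA1 hB1
      have hsub : (cat a A B).filter (· ≤ b) ⊆ A.erase a := by
        intro x hx
        rw [mem_filter] at hx
        have hxa : x ≤ a := by omega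
        rw [mem_erase]
        exact ⟨by omega, (hc5 x hxa).1 hx.1⟩
      have hcard := Finset.card_le_card hsub
      have h5 := Finset.card_erase_of_mem haA
      have h6 : 0 < A.card := Finset.card_pos.2 ⟨a, haA⟩
      omega
  have hz0 : (0 : ℝ) < z := by linarith
  have hw : (0 : ℝ) ≤ 1 / (2 * z) := by positivity
  have hw1 : 1 / (2 * z) < 1 := by
    rw [div_lt_one (by positivity)]
    linarith
  calc ∑ c ∈ range c₁,
        (((Fam (h + n') c).filter fun S => h ≤ (S.filter (· ≤ b)).card).card : ℝ) / 2 ^ c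
      ≤ ∑ c ∈ range c₁, ∑ a ∈ range (c + 1), (if a ≤ b then ((Fam h a).card : ℝ) else 0) / 2 ^ a *
        (((Fam n' (c - a)).card : ℝ) / 2 ^ (c - a)) := by
        apply Finset.sum_le_sum
        intro c _
        rw [div_le_iff₀ (by positivity), Finset.sum_mul]
        refine le_trans (key c) (le_of_eq ?_)
        apply Finset.sum_congr rfl
        intro a ha
        have hac : a ≤ c := by
          simp only [mem_range] at ha
          omega
        have e2 : (2 : ℝ) ^ c = 2 ^ a * 2 ^ (c - a) := by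
          rw [← pow_add]
          congr 1
          omega
        rw [e2]
        field_simp
    _ ≤ (∑ a ∈ range c₁, (if a ≤ b then ((Fam h a).card : ℝ) else 0) / 2 ^ a) *
        ∑ c ∈ range c₁, ((Fam n' c).card : ℝ) / 2 ^ c := by
        refine conv_le (fun a => (if a ≤ b then ((Fam h a).card : ℝ) else 0) / 2 ^ a)
          (fun c => ((Fam n' c).card : ℝ) / 2 ^ c) (fun a => ?_) (fun a => ?_) c₁
        · split_ifs <;> positivity
        · positivity
    _ ≤ (∑ a ∈ range c₁, (if a ≤ b then ((Fam h a).card : ℝ) else 0) / 2 ^ a) * 1 := by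
        apply mul_le_mul_of_nonneg_left (mass_half h2 n' c₁)
        apply Finset.sum_nonneg
        intro a _
        split_ifs <;> positivity
    _ ≤ ∑ a ∈ range c₁, z ^ b * (((Fam h a).card : ℝ) * (1 / (2 * z)) ^ a) := by
        rw [mul_one]
        apply Finset.sum_le_sum
        intro a _
        by_cases hab : a ≤ b
        · rw [if_pos hab]
          have e3 : z ^ b = z ^ a * z ^ (b - a) := by
            rw [← pow_add]
            congr 1
            omega
          have e4 : (1 : ℝ) ≤ z ^ (b - a) := one_le_pow₀ hz.le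
          have e5 : z ^ b * (((Fam h a).card : ℝ) * (1 / (2 * z)) ^ a) =
              ((Fam h a).card : ℝ) / 2 ^ a * z ^ (b - a) := by
            rw [e3, div_pow, mul_pow, one_pow]
            field_simp
          rw [e5]
          have e6 : (0 : ℝ) ≤ ((Fam h a).card : ℝ) / 2 ^ a := by positivity
          nlinarith
        · rw [if_neg hab, zero_div]
          positivity
    _ = z ^ b * ∑ a ∈ range c₁, ((Fam h a).card : ℝ) * (1 / (2 * z)) ^ a := by
        rw [Finset.mul_sum]
    _ ≤ z ^ b * ((1 / (2 * z)) / (1 - 1 / (2 * z))) ^ h := by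
        apply mul_le_mul_of_nonneg_left _ (by positivity)
        exact h2.2.2 _ h c₁ hw hw1
    _ = z ^ b / (2 * z - 1) ^ h := by
        have e7 : (1 / (2 * z)) / (1 - 1 / (2 * z)) = 1 / (2 * z - 1) := by
          have : (2 * z - 1) ≠ 0 := by linarith
          field_simp
        rw [e7, div_pow, one_pow, mul_one_div]

/-- The injection of part 2. -/
def down (b t : ℕ) (x : ℕ) : ℕ := if x ≤ b then x else x - t

def up (b t : ℕ) (x : ℕ) : ℕ := if x ≤ b then x else x + t

lemma up_down {b t x : ℕ} (h : x ≤ b ∨ b + t < x) : up b t (down b t x) = x := by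
  unfold up down
  split_ifs <;> omega

lemma gap_card (n b t c : ℕ) :
    ((Fam n c).filter fun S => (S.filter (· ≤ b + t)).card < n ∧
      (S.filter (· ≤ b + t)).card = (S.filter (· ≤ b)).card).card ≤
      if t ≤ c then (Fam n (c - t)).card else 0 := by
  classical
  set P := (Fam n c).filter fun S => (S.filter (· ≤ b + t)).card < n ∧
      (S.filter (· ≤ b + t)).card = (S.filter (· ≤ b)).card with hP
  -- facts about members
  have facts : ∀ S ∈ P, S ⊆ Icc 1 c ∧ S.card = n ∧ c ∈ S ∧ b + t < c ∧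
      ∀ x ∈ S, x ≤ b ∨ b + t < x := by
    intro S hS
    rw [hP, mem_filter] at hS
    obtain ⟨hS1, hS2, hS3⟩ := hS
    obtain ⟨hA1, hA2, hA3⟩ := mem_Fam.1 hS1
    have hex : ∃ x ∈ S, b + t < x := by
      by_contra hno
      push Not at hno
      have : S.filter (· ≤ b + t) = S := by
        apply Finset.filter_true_of_mem
        exact hno
      rw [this] at hS2
      omega
    obtain ⟨x, hx1, hx2⟩ := hex
    have hxc := (mem_Icc.1 (hA1 hx1)).2
    have hsub : S.filter (· ≤ b) ⊆ S.filter (· ≤ b + t) := by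
      intro y hy
      rw [mem_filter] at hy ⊢
      exact ⟨hy.1, by omega⟩
    have heq := Finset.eq_of_subset_of_card_le hsub (by omega)
    refine ⟨hA1, hA2, mem_of_sup hS1 (by omega), by omega, ?_⟩
    intro y hy
    by_cases hyb : y ≤ b + t
    · left
      have : y ∈ S.filter (· ≤ b + t) := mem_filter.2 ⟨hy, hyb⟩
      rw [← heq, mem_filter] at this
      exact this.2
    · right
      omega
  by_cases hemp : P = ∅
  · rw [hemp, card_empty]
    exact Nat.zero_le _
  · obtain ⟨S₀, hS₀⟩ := Finset.nonempty_iff_ne_empty.2 hemp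
    have htc : t ≤ c := by
      have := (facts S₀ hS₀).2.2.2.1
      omega
    rw [if_pos htc]
    apply Finset.card_le_card_of_injOn (fun S => S.image (down b t))
    · intro S hS
      obtain ⟨f1, f2, f3, f4, f5⟩ := facts S hS
      simp only [Finset.mem_coe]
      rw [mem_Fam]
      have g1 : S.image (down b t) ⊆ Icc 1 (c - t) := by
        intro y hy
        obtain ⟨x, hx, rfl⟩ := mem_image.1 hy
        have h1 := mem_Icc.1 (f1 hx)
        have h2 := f5 x hx
        rw [mem_Icc]
        unfold down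
        split_ifs <;> omega
      refine ⟨g1, ?_, ?_⟩
      · rw [Finset.card_image_of_injOn, f2]
        intro x hx y hy hxy
        have := congrArg (up b t) hxy
        rwa [up_down (f5 x hx), up_down (f5 y hy)] at this
      · apply sup_eq_of_mem g1
        rw [mem_image]
        refine ⟨c, f3, ?_⟩
        unfold down
        rw [if_neg (by omega)]
    · intro S hS S' hS' hSS
      have inv : ∀ S ∈ P, (S.image (down b t)).image (up b t) = S := by
        intro S hS
        obtain ⟨f1, f2, f3, f4, f5⟩ := facts S hS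
        rw [Finset.image_image]
        ext y
        simp only [mem_image, Function.comp]
        constructor
        · rintro ⟨x, hx, rfl⟩
          rw [up_down (f5 x hx)]
          exact hx
        · intro hy
          exact ⟨y, hy, up_down (f5 y hy)⟩
      have := congrArg (fun U => Finset.image (up b t) U) hSS
      simp only at this
      rwa [inv S hS, inv S' hS'] at this

/-- Part 2. -/
lemma part2 (h2 : MassStatement) (n b t c₁ : ℕ) :
    ∑ c ∈ range c₁, (((Fam n c).filter fun S => (S.filter (· ≤ b + t)).card < n ∧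
      (S.filter (· ≤ b + t)).card = (S.filter (· ≤ b)).card).card : ℝ) / 2 ^ c ≤ 1 / 2 ^ t := by
  calc ∑ c ∈ range c₁, (((Fam n c).filter fun S => (S.filter (· ≤ b + t)).card < n ∧
      (S.filter (· ≤ b + t)).card = (S.filter (· ≤ b)).card).card : ℝ) / 2 ^ c
      ≤ ∑ c ∈ range c₁, if t ≤ c then ((Fam n (c - t)).card : ℝ) / 2 ^ c else 0 := by
        apply Finset.sum_le_sum
        intro c _
        have h := gap_card n b t c
        have h' : (((Fam n c).filter fun S => (S.filter (· ≤ b + t)).card < n ∧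
            (S.filter (· ≤ b + t)).card = (S.filter (· ≤ b)).card).card : ℝ) ≤
            ((if t ≤ c then (Fam n (c - t)).card else 0 : ℕ) : ℝ) := by
          exact_mod_cast h
        by_cases htc : t ≤ c
        · rw [if_pos htc] at h' ⊢
          exact div_le_div_of_nonneg_right h' (by positivity)
        · rw [if_neg htc] at h' ⊢
          rw [div_le_iff₀ (by positivity), zero_mul]
          simpa using h'
    _ = ∑ c ∈ (range c₁).filter (fun c => t ≤ c), ((Fam n (c - t)).card : ℝ) / 2 ^ c := by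
        rw [Finset.sum_filter]
    _ = ∑ c ∈ Ico t c₁, ((Fam n (c - t)).card : ℝ) / 2 ^ c := by
        congr 1
        ext c
        simp only [mem_filter, mem_range, mem_Ico]
        omega
    _ = ∑ k ∈ range (c₁ - t), ((Fam n k).card : ℝ) / 2 ^ k * (1 / 2 ^ t) := by
        rw [Finset.sum_Ico_eq_sum_range]
        apply Finset.sum_congr rfl
        intro k _
        rw [Nat.add_sub_cancel_left, pow_add]
        field_simp
    _ = (∑ k ∈ range (c₁ - t), ((Fam n k).card : ℝ) / 2 ^ k) * (1 / 2 ^ t) := by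
        rw [Finset.sum_mul]
    _ ≤ 1 * (1 / 2 ^ t) := by
        apply mul_le_mul_of_nonneg_right (mass_half h2 n (c₁ - t)) (by positivity)
    _ = 1 / 2 ^ t := one_mul _

/-- Part 3. -/
lemma part3 (h3 : HexpStatement) (n c₁ : ℕ) (x : ℝ) (hx : 0 < x) :
    ∑ c ∈ range c₁, (((Fam n c).filter fun S => x ≤ xr S).card : ℝ) / 2 ^ c ≤ n / (3 * x) := by
  have h := h3 n c₁
  have hnn : ∀ S, 0 ≤ xr S := by
    intro S
    unfold xr
    apply Finset.sum_nonneg
    intro y _
    positivity
  have h5 : (∑ c ∈ range c₁, (((Fam n c).filter fun S => x ≤ xr S).card : ℝ) / 2 ^ c) * x ≤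
      ∑ c ∈ range c₁, (∑ S ∈ Fam n c, xr S) / 2 ^ c := by
    rw [Finset.sum_mul]
    apply Finset.sum_le_sum
    intro c _
    rw [div_mul_eq_mul_div]
    apply div_le_div_of_nonneg_right _ (by positivity)
    calc (((Fam n c).filter fun S => x ≤ xr S).card : ℝ) * x
        = ∑ S ∈ (Fam n c).filter fun S => x ≤ xr S, x := by
          rw [Finset.sum_const, nsmul_eq_mul]
      _ ≤ ∑ S ∈ (Fam n c).filter fun S => x ≤ xr S, xr S := by
          apply Finset.sum_le_sum
          intro S hS
          exact (mem_filter.1 hS).2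
      _ ≤ ∑ S ∈ Fam n c, xr S := by
          apply Finset.sum_le_sum_of_subset_of_nonneg (filter_subset _ _)
          intro S _ _
          exact hnn S
  have h6 : (n : ℝ) / (3 * x) = (n / 3) / x := by
    field_simp
  rw [h6, le_div_iff₀ hx]
  exact h5.trans h

/-- Part 4. -/
lemma part4 (h2 : MassStatement) (n c₂ c₁ : ℕ) :
    ∑ c ∈ Ico c₂ c₁, ((Fam n c).card : ℝ) / 2 ^ c ≤ 3 ^ n / (3 / 2 : ℝ) ^ c₂ := by
  have h := h2.2.2 (3 / 4) n c₁ (by norm_num) (by norm_num)
  have e1 : ((3 / 4 : ℝ) / (1 - 3 / 4)) = 3 := by norm_num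
  rw [e1] at h
  calc ∑ c ∈ Ico c₂ c₁, ((Fam n c).card : ℝ) / 2 ^ c
      ≤ ∑ c ∈ Ico c₂ c₁, ((Fam n c).card : ℝ) * (3 / 4) ^ c * (1 / (3 / 2 : ℝ) ^ c₂) := by
        apply Finset.sum_le_sum
        intro c hc
        have hc' := (mem_Ico.1 hc).1
        rw [div_eq_mul_one_div, mul_assoc]
        apply mul_le_mul_of_nonneg_left _ (by positivity)
        obtain ⟨d, rfl⟩ := Nat.exists_eq_add_of_le hc'
        have e2 : (3 / 4 : ℝ) ^ (c₂ + d) * (1 / (3 / 2 : ℝ) ^ c₂) = 1 / 2 ^ (c₂ + d) * (3 / 2) ^ d := by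
          rw [pow_add, pow_add]
          have e3 : (3 / 4 : ℝ) ^ c₂ = (3 / 2) ^ c₂ / 2 ^ c₂ := by
            rw [← div_pow]
            norm_num
          have e4 : (3 / 4 : ℝ) ^ d = (3 / 2) ^ d / 2 ^ d := by
            rw [← div_pow]
            norm_num
          rw [e3, e4]
          field_simp
        rw [e2]
        have e5 : (1 : ℝ) ≤ (3 / 2) ^ d := one_le_pow₀ (by norm_num)
        have e6 : (0 : ℝ) < 1 / 2 ^ (c₂ + d) := by positivity
        nlinarith
    _ ≤ ∑ c ∈ range c₁, ((Fam n c).card : ℝ) * (3 / 4) ^ c * (1 / (3 / 2 : ℝ) ^ c₂) := by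
        apply Finset.sum_le_sum_of_subset_of_nonneg
        · intro c hc
          simp only [mem_Ico, mem_range] at hc ⊢
          exact hc.2
        · intro c _ _
          positivity
    _ = (∑ c ∈ range c₁, ((Fam n c).card : ℝ) * (3 / 4) ^ c) * (1 / (3 / 2 : ℝ) ^ c₂) := by
        rw [Finset.sum_mul]
    _ ≤ 3 ^ n * (1 / (3 / 2 : ℝ) ^ c₂) := by
        apply mul_le_mul_of_nonneg_right h (by positivity)
    _ = 3 ^ n / (3 / 2 : ℝ) ^ c₂ := by rw [mul_one_div]

/-- TYP. -/
theorem typ (h1 : FamSplitStatement) (h2 : MassStatement) (h3 : HexpStatement)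
    (h4 : CatStatement) : TypStatement :=
  ⟨fun n h b c₁ z hn hz => part1 h1 h2 h4 n h b c₁ z hn hz,
    fun n b t c₁ => part2 h2 n b t c₁,
    fun n c₁ x hx => part3 h3 n c₁ x hx,
    fun n c₂ c₁ => part4 h2 n c₂ c₁⟩

end Pool.Agent.Lib.MP_0a5adf_nt.TP.H53
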